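import Pool.Agent.H175G.Stmts2

/-! T18a (helper676): local facts. -/

set_option linter.unusedVariables false

namespace Pool.Agent.H676R2.T18a

open Pool.Agent.H175G
open Finset Classical

variable {V : Type} {G : SimpleGraph V} {c0 c1 c2 c3 c4 : V}

lemma rot (h : C5c G c0 c1 c2 c3 c4) : C5c G c2 c3 c4 c0 c1 := by
  obtain ⟨h1, h2, h3, h4, h5, h6, h7, h8, h9, h10⟩ := h
  exact ⟨h3, h4, h5, h1, h2, h10, fun h => h6 h.symm, fun h => h7 h.symm, fun h => h8 h.symm,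
    fun h => h9 h.symm⟩

/-- `N` is independent -/
lemma indN (hp : NoP23 G) (hc : C5c G c0 c1 c2 c3 c4) {n n' : V} (hn : TN G c0 c1 c2 c3 c4 n)
    (hn' : TN G c0 c1 c2 c3 c4 n') : ¬ G.Adj n n' := by
  intro h; gp 0

/-- `D₁` is anticomplete to `M₀` -/
lemma d1m (hg : NoGem G) (hp : NoP23 G) (hc : C5c G c0 c1 c2 c3 c4) {d m : V}
    (hd : TD G c1 c2 c3 c4 c0 d) (hm : TM G c0 c1 c2 c3 c4 m) : ¬ G.Adj d m := by
  intro h; gp 2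

/-- `D₄` is anticomplete to `M₀` -/
lemma d4m (hg : NoGem G) (hp : NoP23 G) (hc : C5c G c0 c1 c2 c3 c4) {d m : V}
    (hd : TD G c4 c0 c1 c2 c3 d) (hm : TM G c0 c1 c2 c3 c4 m) : ¬ G.Adj d m := by
  intro h; gp 2

/-- `d ∈ D₂` is homogeneous to `M₀` -/
lemma d2m (hg : NoGem G) (hp : NoP23 G) (hc : C5c G c0 c1 c2 c3 c4) {d m m' : V}
    (hd : TD G c2 c3 c4 c0 c1 d) (hm : TM G c0 c1 c2 c3 c4 m) (hm' : TM G c0 c1 c2 c3 c4 m')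
    (h : G.Adj d m) : G.Adj d m' := by
  by_contra h'; gp 2

/-- `d ∈ D₃` is homogeneous to `M₀` -/
lemma d3m (hg : NoGem G) (hp : NoP23 G) (hc : C5c G c0 c1 c2 c3 c4) {d m m' : V}
    (hd : TD G c3 c4 c0 c1 c2 d) (hm : TM G c0 c1 c2 c3 c4 m) (hm' : TM G c0 c1 c2 c3 c4 m')
    (h : G.Adj d m) : G.Adj d m' := by
  by_contra h'; gp 2

/-- `n ~ d₁` is complete to `M₀` -/
lemma nd1 (hg : NoGem G) (hp : NoP23 G) (hc : C5c G c0 c1 c2 c3 c4) {n d m : V}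
    (hn : TN G c0 c1 c2 c3 c4 n) (hd : TD G c1 c2 c3 c4 c0 d) (hm : TM G c0 c1 c2 c3 c4 m)
    (h : G.Adj n d) : G.Adj n m := by
  by_contra h'; gp 2

lemma nd4 (hg : NoGem G) (hp : NoP23 G) (hc : C5c G c0 c1 c2 c3 c4) {n d m : V}
    (hn : TN G c0 c1 c2 c3 c4 n) (hd : TD G c4 c0 c1 c2 c3 d) (hm : TM G c0 c1 c2 c3 c4 m)
    (h : G.Adj n d) : G.Adj n m := by
  by_contra h'; gp 2

lemma nd2 (hg : NoGem G) (hp : NoP23 G) (hc : C5c G c0 c1 c2 c3 c4) {n d m m' : V}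
    (hn : TN G c0 c1 c2 c3 c4 n) (hd : TD G c2 c3 c4 c0 c1 d) (hm : TM G c0 c1 c2 c3 c4 m)
    (hm' : TM G c0 c1 c2 c3 c4 m') (h : G.Adj n d) (h1 : G.Adj n m) : G.Adj n m' := by
  by_contra h'; gp 2

lemma nd3 (hg : NoGem G) (hp : NoP23 G) (hc : C5c G c0 c1 c2 c3 c4) {n d m m' : V}
    (hn : TN G c0 c1 c2 c3 c4 n) (hd : TD G c3 c4 c0 c1 c2 d) (hm : TM G c0 c1 c2 c3 c4 m)
    (hm' : TM G c0 c1 c2 c3 c4 m') (h : G.Adj n d) (h1 : G.Adj n m) : G.Adj n m' := by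
  by_contra h'; gp 2

/-! facts about `x ∈ D₀`, `n ~ x`, `n` not homogeneous to `M₀` (`n ~ m`, `n ≁ m'`) -/

lemma x1 (hg : NoGem G) (hp : NoP23 G) (hc : C5c G c0 c1 c2 c3 c4) {n x d m m' : V}
    (hn : TN G c0 c1 c2 c3 c4 n) (hx : TD G c0 c1 c2 c3 c4 x) (hd : TD G c1 c2 c3 c4 c0 d)
    (hm : TM G c0 c1 c2 c3 c4 m) (hm' : TM G c0 c1 c2 c3 c4 m') (hxm : G.Adj x m)
    (hxm' : G.Adj x m') (h : G.Adj n x) (h1 : G.Adj n m) (h2 : ¬ G.Adj n m') : G.Adj x d := by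
  have h3 : ¬ G.Adj n d := fun h3 => h2 (nd1 hg hp hc hn hd hm' h3)
  by_contra h'; gp 2

lemma x4 (hg : NoGem G) (hp : NoP23 G) (hc : C5c G c0 c1 c2 c3 c4) {n x d m m' : V}
    (hn : TN G c0 c1 c2 c3 c4 n) (hx : TD G c0 c1 c2 c3 c4 x) (hd : TD G c4 c0 c1 c2 c3 d)
    (hm : TM G c0 c1 c2 c3 c4 m) (hm' : TM G c0 c1 c2 c3 c4 m') (hxm : G.Adj x m)
    (hxm' : G.Adj x m') (h : G.Adj n x) (h1 : G.Adj n m) (h2 : ¬ G.Adj n m') : G.Adj x d := by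
  have h3 : ¬ G.Adj n d := fun h3 => h2 (nd4 hg hp hc hn hd hm' h3)
  by_contra h'; gp 2

lemma x2 (hg : NoGem G) (hp : NoP23 G) (hc : C5c G c0 c1 c2 c3 c4) {n x d m m' : V}
    (hn : TN G c0 c1 c2 c3 c4 n) (hx : TD G c0 c1 c2 c3 c4 x) (hd : TD G c2 c3 c4 c0 c1 d)
    (hm : TM G c0 c1 c2 c3 c4 m) (hm' : TM G c0 c1 c2 c3 c4 m') (hxm : G.Adj x m)
    (hxm' : G.Adj x m') (h : G.Adj n x) (h1 : G.Adj n m) (h2 : ¬ G.Adj n m') : G.Adj x d := by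
  have h3 : ¬ G.Adj n d := fun h3 => h2 (nd2 hg hp hc hn hd hm hm' h3 h1)
  by_contra h'; gp 2

lemma x3 (hg : NoGem G) (hp : NoP23 G) (hc : C5c G c0 c1 c2 c3 c4) {n x d m m' : V}
    (hn : TN G c0 c1 c2 c3 c4 n) (hx : TD G c0 c1 c2 c3 c4 x) (hd : TD G c3 c4 c0 c1 c2 d)
    (hm : TM G c0 c1 c2 c3 c4 m) (hm' : TM G c0 c1 c2 c3 c4 m') (hxm : G.Adj x m)
    (hxm' : G.Adj x m') (h : G.Adj n x) (h1 : G.Adj n m) (h2 : ¬ G.Adj n m') : G.Adj x d := by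
  have h3 : ¬ G.Adj n d := fun h3 => h2 (nd3 hg hp hc hn hd hm hm' h3 h1)
  by_contra h'; gp 2

/-- anticomplete to the rest of `D₀` -/
lemma x0 (hg : NoGem G) (hp : NoP23 G) (hc : C5c G c0 c1 c2 c3 c4) {n x d m m' : V}
    (hn : TN G c0 c1 c2 c3 c4 n) (hx : TD G c0 c1 c2 c3 c4 x) (hd : TD G c0 c1 c2 c3 c4 d)
    (hm : TM G c0 c1 c2 c3 c4 m) (hm' : TM G c0 c1 c2 c3 c4 m') (hxm : G.Adj x m)
    (hxm' : G.Adj x m') (hdm : G.Adj d m) (hdm' : G.Adj d m')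
    (h : G.Adj n x) (h1 : G.Adj n m) (h2 : ¬ G.Adj n m')
    (h3 : ¬ G.Adj n d) : ¬ G.Adj x d := by
  intro h'; gp 2

/-- the neighbours of `n` in `D₀` form a clique -/
lemma x00 (hg : NoGem G) (hp : NoP23 G) (hc : C5c G c0 c1 c2 c3 c4) {n x d m m' : V}
    (hn : TN G c0 c1 c2 c3 c4 n) (hx : TD G c0 c1 c2 c3 c4 x) (hd : TD G c0 c1 c2 c3 c4 d)
    (hm : TM G c0 c1 c2 c3 c4 m) (hm' : TM G c0 c1 c2 c3 c4 m') (hxm : G.Adj x m)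
    (hxm' : G.Adj x m') (hdm : G.Adj d m) (hdm' : G.Adj d m')
    (h : G.Adj n x) (h1 : G.Adj n m) (h2 : ¬ G.Adj n m')
    (h3 : G.Adj n d) (hne : x ≠ d) : G.Adj x d := by
  by_contra h'; gp 2

/-- anticomplete to `N ∖ {n}` -/
lemma xn (hg : NoGem G) (hp : NoP23 G) (hc : C5c G c0 c1 c2 c3 c4) {n n' x m m' : V}
    (hn : TN G c0 c1 c2 c3 c4 n) (hn' : TN G c0 c1 c2 c3 c4 n') (hx : TD G c0 c1 c2 c3 c4 x)
    (hm : TM G c0 c1 c2 c3 c4 m) (hm' : TM G c0 c1 c2 c3 c4 m') (hxm : G.Adj x m)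
    (hxm' : G.Adj x m') (h : G.Adj n x) (h1 : G.Adj n m) (h2 : ¬ G.Adj n m') (hne : n ≠ n') :
    ¬ G.Adj x n' := by
  intro h'
  have h3 := indN hp hc hn hn'
  gp 2

/-- `n ~ d₀` implies `n` homogeneous to `M₂`; stated for the rotated cycle: `n ~ d₃` and `M₀` -/
lemma nd0' (hg : NoGem G) (hp : NoP23 G) (hc : C5c G c0 c1 c2 c3 c4) {n d m m' : V}
    (hn : TN G c0 c1 c2 c3 c4 n) (hd : TD G c3 c4 c0 c1 c2 d) (hm : TM G c0 c1 c2 c3 c4 m)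
    (hm' : TM G c0 c1 c2 c3 c4 m') (h : G.Adj n d) (h1 : G.Adj n m) : G.Adj n m' :=
  nd3 hg hp hc hn hd hm hm' h h1

end Pool.Agent.H676R2.T18a
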